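import Pool.Agent.U723.LN.StmQ

/-!
Project LN2 (helper723), package RM (helper49): measurability of the paths, and from sequences to
uniform statements. Port of `Pool.Agent.U901.LB.RM` (helper901) and `Pool.Agent.U750.LB.MAINQ`
(helper750).
-/

set_option autoImplicit false

namespace Pool.Agent.U49.LN.RM

open Real MeasureTheory Filter Topology ProbabilityTheory Pool.Agent.U581.BM
open Pool.Agent.U581.LB hiding cf Bh Vh UN sg pathR cc pathT pathU S_UP S_VAR S_BLK S_MS S_LIM S_TOR S_MAIN S_DIV S_MB S_VARQ S_MSQ S_APX S_RM S_SEQ S_MAINQ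
open Pool.Agent.U723.LN
open scoped BoundedContinuousFunction NNReal Nat

variable [D : Coef]

/-- the vector of the first values of a sequence -/
noncomputable def vec (M : ℕ) (c : ℕ → ℝ) : EuclideanSpace ℝ (Fin (M + 1)) :=
  WithLp.toLp 2 fun i => c i

omit D in
theorem polygon_vec (M : ℕ) (c : ℕ → ℝ) : polygon M (ext0 M (vec M c)) = polygon M c := by
  apply polygon_congr
  intro i hi
  unfold ext0 vec
  rw [dif_pos (by omega)]

omit D in
theorem vec_meas {Ω : Type*} [MeasurableSpace Ω] (M : ℕ) {c : Ω → ℕ → ℝ}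
    (h : ∀ i, Measurable fun ω => c ω i) : Measurable fun ω => vec M (c ω) :=
  (WithLp.measurable_toLp 2 _).comp (measurable_pi_lambda _ fun i => h i)

theorem UN_cont (N : ℕ) : Continuous (UN N) := by
  unfold UN
  fun_prop

theorem t_RM : S_RM := by
  intro _ _ ρ T M L
  have hc : Continuous fun z => polygon M (ext0 M z) := polygon_cont M fun i => ext0_cont M i
  have hmul : Measurable fun x : ℝ => T * x := measurable_const_mul T
  have hE : Measurable D.E := D.meas
  constructor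
  · have hz : ∀ i : ℕ, Measurable fun R : ℝ => (D.E (R + ρ * (i / M)) - D.E R) / sg ρ := by
      intro i
      exact ((hE.comp (measurable_id.add_const _)).sub hE).div_const _
    have hv := vec_meas M (c := fun R (i : ℕ) => (D.E (R + ρ * (i / M)) - D.E R) / sg ρ) hz
    have h1 := (hc.measurable.comp hv).comp hmul
    have e : (fun x => pathR ρ M (T * x)) = ((fun z => polygon M (ext0 M z)) ∘ fun R =>
        vec M (fun i : ℕ => (D.E (R + ρ * (i / M)) - D.E R) / sg ρ)) ∘ fun x => T * x := by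
      funext x
      show pathR ρ M (T * x) = polygon M (ext0 M (vec M _))
      rw [polygon_vec]
      rfl
    rw [e]
    exact h1
  · have hz : ∀ i : ℕ, Measurable fun R : ℝ =>
        (UN (L ^ 2) (R + ρ * (i / M)) - UN (L ^ 2) R) / sg ρ := fun i =>
      ((((UN_cont (L ^ 2)).comp (continuous_id.add continuous_const)).sub
        (UN_cont (L ^ 2))).div_const _).measurable
    have hv := vec_meas M (c := fun R (i : ℕ) =>
      (UN (L ^ 2) (R + ρ * (i / M)) - UN (L ^ 2) R) / sg ρ) hz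
    have h1 := (hc.measurable.comp hv).comp hmul
    have e : (fun x => pathU ρ M L (T * x)) = ((fun z => polygon M (ext0 M z)) ∘ fun R =>
        vec M (fun i : ℕ => (UN (L ^ 2) (R + ρ * (i / M)) - UN (L ^ 2) R) / sg ρ)) ∘
          fun x => T * x := by
      funext x
      show pathU ρ M L (T * x) = polygon M (ext0 M (vec M _))
      rw [polygon_vec]
      rfl
    rw [e]
    exact h1

theorem t_MAINQ (h : S_SEQ) : S_MAINQ := by
  intro c₁ c₂ K s hc₁ hs Ω _ P B hB F ε hε
  by_contra hcon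
  push Not at hcon
  have key : ∀ j : ℕ, ∃ (T ρ : ℝ) (M : ℕ) (μ : Measure ℝ), (j : ℝ) + 2 ≤ T ∧
      T ^ (-(1 / ((j : ℝ) + 1))) ≤ ρ ∧ ρ ≤ 1 / ((j : ℝ) + 2) ∧ j + 1 ≤ M ∧
      (M : ℝ) ≤ T ^ (1 / ((j : ℝ) + 1)) ∧ AdmL c₁ c₂ K s T μ ∧
      ε < |∫ x, F (pathR ρ M (T * x)) ∂μ - ∫ ω, F (bpath B ω) ∂P| := by
    intro j
    obtain ⟨T, ρ, M, h1, h2, h3, h4, h5, μ, h6, h7⟩ :=
      hcon (1 / ((j : ℝ) + 2)) (1 / ((j : ℝ) + 1)) ((j : ℝ) + 2) (j + 1) (by positivity)
        (by positivity)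
    exact ⟨T, ρ, M, μ, h1, h2, h3, h4, h5, h6, h7⟩
  choose T ρ M μ h1 h2 h3 h4 h5 h6 h7 using key
  have hT1 : ∀ j, 1 < T j := fun j => by
    have : (0 : ℝ) ≤ j := Nat.cast_nonneg j
    linarith [h1 j]
  have hρ : ∀ j, 0 < ρ j ∧ ρ j < 1 := fun j => by
    refine ⟨lt_of_lt_of_le (rpow_pos_of_pos (by linarith [hT1 j]) _) (h2 j), ?_⟩
    refine lt_of_le_of_lt (h3 j) ?_
    have : (0 : ℝ) ≤ j := Nat.cast_nonneg j
    rw [div_lt_one (by positivity)]
    linarith
  have hTt : Tendsto T atTop atTop := by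
    refine tendsto_atTop_mono (fun j => ?_) tendsto_natCast_atTop_atTop
    linarith [h1 j]
  have hρt : Tendsto ρ atTop (𝓝 0) := by
    refine squeeze_zero (fun j => (hρ j).1.le) (fun j => (h3 j).trans ?_)
      tendsto_one_div_add_atTop_nhds_zero_nat
    apply one_div_le_one_div_of_le (by positivity)
    linarith
  have hMt : Tendsto M atTop atTop :=
    tendsto_atTop_mono (fun j => (Nat.le_succ j).trans (h4 j)) tendsto_id
  have hδ : ∀ δ : ℝ, 0 < δ → ∀ᶠ j in atTop, T j ^ (-δ) ≤ ρ j ∧ (M j : ℝ) ≤ T j ^ δ := by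
    intro δ hδ
    have h8 : ∀ᶠ j : ℕ in atTop, 1 / ((j : ℝ) + 1) < δ :=
      (tendsto_one_div_add_atTop_nhds_zero_nat (𝕜 := ℝ)).eventually_lt_const hδ
    filter_upwards [h8] with j hj
    refine ⟨(rpow_le_rpow_of_exponent_le (hT1 j).le ?_).trans (h2 j),
      (h5 j).trans (rpow_le_rpow_of_exponent_le (hT1 j).le hj.le)⟩
    linarith
  have hlim := h c₁ c₂ K s hc₁ hs T ρ M μ h6 hT1 hTt hρ hρt hMt hδ P B hB F
  have h9 : ∀ᶠ j in atTop, |∫ x, F (pathR (ρ j) (M j) (T j * x)) ∂μ j -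
      ∫ ω, F (bpath B ω) ∂P| < ε := by
    have h10 := Metric.tendsto_nhds.1 hlim ε hε
    filter_upwards [h10] with j hj
    rwa [Real.dist_eq] at hj
  obtain ⟨j, hj⟩ := h9.exists
  exact absurd (h7 j) (not_lt.2 hj.le)

end Pool.Agent.U49.LN.RM
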